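import Pool.Agent.Q66.SN5

set_option autoImplicit false

/-!
# MP_c77999_an, Q2: the maximal Schur multiplier norms of sign matrices are strictly increasing

`schurNorm M` is the Schur multiplier norm, `signNorms n` the set of the Schur multiplier norms of
the `n × n` matrices with entries `1` and `-1`, and `r n` its maximum (`Pool/Agent/Q66/SNDefs.lean`).

Idea of the proof. `r n` is the maximum of `∑ u i * M i j * v j * V i j` over sign matrices `M`,
real unit vectors `u, v` and orthogonal matrices `V`. At a maximum `P = Vᵀ (u M v)` has diagonal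
`r n * v j ^ 2`, and `V P Vᵀ` has diagonal `r n * u i ^ 2`. Border `M` by sign vectors `b, b'` and
`1`, the vectors `u, v` by a small entry, and rotate the bordered `V` by a small angle in the
direction `k`. If no such choice beats `r n`, then `(g ⬝ k) ^ 2 ≤ λ * (k ⬝ P k)` for all `k`, where
`g = Vᵀ (u b) - v b'` and `λ < 2 * r n`. For suitable signs, however, `g ⬝ P⁻¹ g` is at least
`∑ u i ^ 2 / (r n * u i ^ 2) + ∑ v j ^ 2 / (r n * v j ^ 2) ≥ 2 * r n`.
-/

namespace Pool.Agent.Results.MP_c77999_an.StrictlyIncreasing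

open Q66.SN
open scoped Matrix Matrix.Norms.L2Operator

/-- For `n ≥ 1` the Schur multiplier norms of the `n × n` sign matrices are genuine suprema, `r n`
is the largest of them, and `r n < r (n + 1)`. -/
theorem result :
    (∀ n : ℕ, 1 ≤ n → ∀ M : Matrix (Fin n) (Fin n) ℝ, IsSign M →
      BddAbove {x : ℝ | ∃ A : Matrix (Fin n) (Fin n) ℂ,
        ‖A‖ ≤ 1 ∧ x = ‖(M.map (fun t => (t : ℂ))) ⊙ A‖}) ∧
    (∀ n : ℕ, 1 ≤ n → IsGreatest (signNorms n) (r n)) ∧
    ∀ n : ℕ, 1 ≤ n → r n < r (n + 1) := by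
  refine ⟨fun n hn M hM => ?_, fun n hn => (r_spec n hn).1, r_lt⟩
  obtain ⟨-, -, -, -, -, -, -, -, -, h1, -, hmax⟩ := r_spec n hn
  refine ⟨r n, ?_⟩
  rintro x ⟨A, hA, rfl⟩
  exact schur_upper (by linarith) (fun V u v hV hu hv => hmax M V u v hM hV hu hv) hA

end Pool.Agent.Results.MP_c77999_an.StrictlyIncreasing
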